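import Mathlib

set_option autoImplicit false

/-!
# Circle packings of the hexagonal complex: definitions

Vertices of the hexagonal complex are pairs `(n, m)` of integers; the pair `(n, m)` stands for the
lattice point `n + m ω` with `ω = exp (i π / 3)`.
-/

namespace Pool.Agent.Lib.MP_5725d1_gt

/-- The six unit vectors `1, ω, ω - 1, -1, -ω, 1 - ω` of the hexagonal lattice in the coordinates
`n + m ω`, in counterclockwise cyclic order. The neighbours of `v` are the `v + nbr i`, and the
six faces at `v` are the triples `v, v + nbr i, v + nbr (i + 1)`. -/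
def nbr : Fin 6 → ℤ × ℤ := ![(1, 0), (0, 1), (-1, 1), (-1, 0), (0, -1), (1, -1)]

/-- The angle opposite to the side `y + z` in the Euclidean triangle with side lengths `x + y`,
`x + z`, `y + z` (law of cosines). -/
noncomputable def ang (x y z : ℝ) : ℝ :=
  Real.arccos (((x + y) ^ 2 + (x + z) ^ 2 - (y + z) ^ 2) / (2 * (x + y) * (x + z)))

/-- Angle sum of the label `R` at the vertex `v`: the sum over the six faces at `v`. -/
noncomputable def angleSum (R : ℤ × ℤ → ℝ) (v : ℤ × ℤ) : ℝ :=
  ∑ i : Fin 6, ang (R v) (R (v + nbr i)) (R (v + nbr (i + 1)))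

/-- `R` is a packing label of the hexagonal complex. -/
structure IsPackingLabel (R : ℤ × ℤ → ℝ) : Prop where
  pos : ∀ v, 0 < R v
  angle_sum : ∀ v, angleSum R v = 2 * Real.pi

/-- The circles with centres `Z v` and radii `R v` form a circle packing for the hexagonal complex:
`R` is a packing label, circles of adjacent vertices are externally tangent, and every face is
positively oriented. -/
structure IsCirclePacking (R : ℤ × ℤ → ℝ) (Z : ℤ × ℤ → ℂ) : Prop where
  label : IsPackingLabel R
  tangent : ∀ v i, dist (Z v) (Z (v + nbr i)) = R v + R (v + nbr i)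
  oriented : ∀ v i,
    0 < ((starRingEnd ℂ) (Z (v + nbr i) - Z v) * (Z (v + nbr (i + 1)) - Z v)).im

/-- The vertices of the flower at `v`: `v` and its six neighbours. -/
def flower (v : ℤ × ℤ) : Set (ℤ × ℤ) := insert v (Set.range fun i => v + nbr i)

/-- The packing is locally univalent: for every `v` the seven circles of the flower at `v` have
pairwise disjoint interiors. -/
def LocallyUnivalent (R : ℤ × ℤ → ℝ) (Z : ℤ × ℤ → ℂ) : Prop :=
  ∀ v, (flower v).PairwiseDisjoint fun w => Metric.ball (Z w) (R w)

end Pool.Agent.Lib.MP_5725d1_gt
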