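import Mathlib
import Pool.Agent.Lib.MP_5725d1_gt.Defs

set_option autoImplicit false

namespace Pool.Agent.Lib.MP_5725d1_gt

open Real

lemma ang_eq {x y z : ℝ} (hx : 0 < x) (hy : 0 < y) (hz : 0 < z) :
    ang x y z = 2 * arctan (√(y * z / (x * (x + y + z)))) := by
  set t := √(y * z / (x * (x + y + z))) with ht
  have ht0 : 0 ≤ t := Real.sqrt_nonneg _
  have hs : 0 < x + y + z := by positivity
  have ht2 : t ^ 2 = y * z / (x * (x + y + z)) := by
    rw [ht, Real.sq_sqrt (by positivity)]
  have hcos : Real.cos (2 * arctan t) =
      ((x + y) ^ 2 + (x + z) ^ 2 - (y + z) ^ 2) / (2 * (x + y) * (x + z)) := by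
    rw [Real.cos_two_mul, Real.cos_sq_arctan, ht2]
    field_simp
    ring
  have h0 : 0 ≤ 2 * arctan t := by
    have := Real.arctan_nonneg.2 ht0
    linarith
  have hpi : 2 * arctan t ≤ π := by
    have := Real.arctan_lt_pi_div_two t
    linarith
  unfold ang
  rw [← hcos, Real.arccos_cos h0 hpi]

/-- Infinitesimal conductance of the pair `(x,y)` in the face `(x,y,z)`. -/
noncomputable def K (x y z : ℝ) : ℝ := √(x * y * z / (x + y + z)) / (x + y)

lemma K_symm (x y z : ℝ) : K x y z = K y x z := by
  unfold K
  rw [show y * x * z / (y + x + z) = x * y * z / (x + y + z) by ring_nf, add_comm y x]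

lemma K_pos {x y z : ℝ} (hx : 0 < x) (hy : 0 < y) (hz : 0 < z) : 0 < K x y z := by
  unfold K; positivity

lemma K_le {x y z : ℝ} (hx : 0 < x) (hy : 0 < y) (hz : 0 < z) : K x y z ≤ 1 / 2 := by
  unfold K
  rw [div_le_iff₀ (by positivity)]
  have h1 : x * y * z / (x + y + z) ≤ ((x + y) / 2) ^ 2 := by
    rw [div_le_iff₀ (by positivity)]
    nlinarith [sq_nonneg (x - y), mul_pos hx hy, mul_pos hx hz, mul_pos hy hz,
      mul_pos (mul_pos hx hy) hz, mul_nonneg (sq_nonneg (x - y)) (by positivity : 0 ≤ x + y + z)]
  calc √(x * y * z / (x + y + z)) ≤ √(((x + y) / 2) ^ 2) := Real.sqrt_le_sqrt h1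
    _ = (x + y) / 2 := Real.sqrt_sq (by positivity)
    _ = 1 / 2 * (x + y) := by ring

lemma hasDerivAt_ang (a b c x y z s : ℝ) :
    HasDerivAt (fun s => ang (exp (a + s * x)) (exp (b + s * y)) (exp (c + s * z)))
      (K (exp (a + s * x)) (exp (b + s * y)) (exp (c + s * z)) * (y - x)
        + K (exp (a + s * x)) (exp (c + s * z)) (exp (b + s * y)) * (z - x)) s := by
  have hfun : (fun s => ang (exp (a + s * x)) (exp (b + s * y)) (exp (c + s * z)))
      = fun s => 2 * arctan (exp (((b + s * y) + (c + s * z) - (a + s * x)
          - log (exp (a + s * x) + exp (b + s * y) + exp (c + s * z))) / 2)) := by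
    funext s
    rw [ang_eq (exp_pos _) (exp_pos _) (exp_pos _)]
    congr 2
    rw [Real.sqrt_eq_iff_mul_self_eq (by positivity) (by positivity)]
    symm
    rw [← Real.exp_add]
    rw [show ((b + s * y) + (c + s * z) - (a + s * x)
          - log (exp (a + s * x) + exp (b + s * y) + exp (c + s * z))) / 2
          + ((b + s * y) + (c + s * z) - (a + s * x)
          - log (exp (a + s * x) + exp (b + s * y) + exp (c + s * z))) / 2
          = (b + s * y) + (c + s * z) - (a + s * x)
          - log (exp (a + s * x) + exp (b + s * y) + exp (c + s * z)) by ring]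
    rw [Real.exp_sub, Real.exp_sub, Real.exp_add, Real.exp_log (by positivity)]
    rw [div_div]
  have hEE : exp (((b + s * y) + (c + s * z) - (a + s * x)
          - log (exp (a + s * x) + exp (b + s * y) + exp (c + s * z))) / 2)
          * exp (((b + s * y) + (c + s * z) - (a + s * x)
          - log (exp (a + s * x) + exp (b + s * y) + exp (c + s * z))) / 2)
        = exp (b + s * y) * exp (c + s * z) / (exp (a + s * x)
          * (exp (a + s * x) + exp (b + s * y) + exp (c + s * z))) := by
    rw [← Real.exp_add, add_halves, Real.exp_sub, Real.exp_sub, Real.exp_add,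
      Real.exp_log (by positivity), div_div]
  rw [hfun]
  have hlin : ∀ p q : ℝ, HasDerivAt (fun s : ℝ => p + s * q) q s := by
    intro p q
    simpa using ((hasDerivAt_id s).mul_const q).const_add p
  have ha := (hlin a x).exp
  have hb := (hlin b y).exp
  have hc := (hlin c z).exp
  have hsum := (ha.add hb).add hc
  have hne : exp (a + s * x) + exp (b + s * y) + exp (c + s * z) ≠ 0 := by positivity
  have hlog := hsum.log hne
  have hE := ((((hlin b y).add (hlin c z)).sub (hlin a x)).sub hlog).div_const 2
  have hA := (hE.exp.arctan).const_mul 2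
  refine hA.congr_deriv ?_
  simp only [Pi.add_apply, Pi.sub_apply]
  have hK1 : K (exp (a + s * x)) (exp (b + s * y)) (exp (c + s * z))
      = exp (a + s * x) * exp (((b + s * y) + (c + s * z) - (a + s * x)
          - log (exp (a + s * x) + exp (b + s * y) + exp (c + s * z))) / 2)
        / (exp (a + s * x) + exp (b + s * y)) := by
    unfold K
    congr 1
    rw [Real.sqrt_eq_iff_mul_self_eq (by positivity) (by positivity)]
    symm
    rw [show exp (a + s * x) * exp (((b + s * y) + (c + s * z) - (a + s * x)
          - log (exp (a + s * x) + exp (b + s * y) + exp (c + s * z))) / 2)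
          * (exp (a + s * x) * exp (((b + s * y) + (c + s * z) - (a + s * x)
          - log (exp (a + s * x) + exp (b + s * y) + exp (c + s * z))) / 2))
          = (exp (a + s * x)) ^ 2 * (exp (((b + s * y) + (c + s * z) - (a + s * x)
          - log (exp (a + s * x) + exp (b + s * y) + exp (c + s * z))) / 2)
          * exp (((b + s * y) + (c + s * z) - (a + s * x)
          - log (exp (a + s * x) + exp (b + s * y) + exp (c + s * z))) / 2)) by ring]
    rw [hEE]
    field_simp
  have hK2 : K (exp (a + s * x)) (exp (c + s * z)) (exp (b + s * y))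
      = exp (a + s * x) * exp (((b + s * y) + (c + s * z) - (a + s * x)
          - log (exp (a + s * x) + exp (b + s * y) + exp (c + s * z))) / 2)
        / (exp (a + s * x) + exp (c + s * z)) := by
    have : K (exp (a + s * x)) (exp (c + s * z)) (exp (b + s * y))
        = K (exp (a + s * x)) (exp (b + s * y)) (exp (c + s * z))
          * (exp (a + s * x) + exp (b + s * y)) / (exp (a + s * x) + exp (c + s * z)) := by
      unfold K
      rw [div_mul_cancel₀ _ (by positivity)]
      congr 2
      ring_nf
    rw [this, hK1, div_mul_cancel₀ _ (by positivity)]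
  rw [hK1, hK2]
  generalize hEdef : exp (((b + s * y) + (c + s * z) - (a + s * x)
          - log (exp (a + s * x) + exp (b + s * y) + exp (c + s * z))) / 2) = E at *
  have hP := exp_pos (a + s * x)
  have hQ := exp_pos (b + s * y)
  have hR := exp_pos (c + s * z)
  generalize exp (a + s * x) = P at *
  generalize exp (b + s * y) = Q at *
  generalize exp (c + s * z) = R at *
  have h1 : 1 + E ^ 2 = (P + Q) * (P + R) / (P * (P + Q + R)) := by
    rw [pow_two, hEE]
    field_simp
    ring
  rw [h1]
  field_simp
  ring

end Pool.Agent.Lib.MP_5725d1_gt
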