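import Mathlib
import Pool.Agent.Lib.MP_5725d1_gt.Defs

set_option autoImplicit false

namespace Pool.Agent.Lib.MP_5725d1_gt

open Real

lemma nbr_add_three (i : Fin 6) : nbr (i + 3) = - nbr i := by
  revert i; decide

lemma nbr_add_four (i : Fin 6) : nbr i + nbr (i + 4) = nbr (i + 5) := by
  revert i; decide

lemma nbr_add_two (i : Fin 6) : nbr i + nbr (i + 2) = nbr (i + 1) := by
  revert i; decide

/-- edge reversal -/
def rev : ((ℤ × ℤ) × Fin 6) ≃ ((ℤ × ℤ) × Fin 6) where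
  toFun e := (e.1 + nbr e.2, e.2 + 3)
  invFun e := (e.1 + nbr e.2, e.2 + 3)
  left_inv := by
    rintro ⟨v, i⟩
    simp only [nbr_add_three, Prod.mk.injEq]
    refine ⟨by abel, ?_⟩
    revert i; decide
  right_inv := by
    rintro ⟨v, i⟩
    simp only [nbr_add_three, Prod.mk.injEq]
    refine ⟨by abel, ?_⟩
    revert i; decide

lemma rev_apply (v : ℤ × ℤ) (i : Fin 6) : rev (v, i) = (v + nbr i, i + 3) := rfl

lemma rev_snd (v : ℤ × ℤ) (i : Fin 6) : v + nbr i + nbr (i + 3) = v := by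
  rw [nbr_add_three]; abel

/-- Energy identity for finitely supported test functions. -/
lemma energy_identity (φ u : ℤ × ℤ → ℝ) (c : ℤ × ℤ → Fin 6 → ℝ)
    (hsym : ∀ v i, c (v + nbr i) (i + 3) = c v i) (V : Finset (ℤ × ℤ))
    (hφ : ∀ v, v ∉ V → φ v = 0)
    (h0 : ∑ v ∈ V, φ v ^ 2 * u v * ∑ i, c v i * (u (v + nbr i) - u v) = 0) :
    (Summable fun e : (ℤ × ℤ) × Fin 6 =>
      c e.1 e.2 * (φ (e.1 + nbr e.2) * u (e.1 + nbr e.2) - φ e.1 * u e.1) ^ 2) ∧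
    (Summable fun e : (ℤ × ℤ) × Fin 6 =>
      c e.1 e.2 * (u e.1 * u (e.1 + nbr e.2)) * (φ (e.1 + nbr e.2) - φ e.1) ^ 2) ∧
    (Summable fun e : (ℤ × ℤ) × Fin 6 => (φ (e.1 + nbr e.2) - φ e.1) ^ 2) ∧
    ∑' e : (ℤ × ℤ) × Fin 6,
      c e.1 e.2 * (φ (e.1 + nbr e.2) * u (e.1 + nbr e.2) - φ e.1 * u e.1) ^ 2
    = ∑' e : (ℤ × ℤ) × Fin 6,
      c e.1 e.2 * (u e.1 * u (e.1 + nbr e.2)) * (φ (e.1 + nbr e.2) - φ e.1) ^ 2 := by
  classical
  set f : (ℤ × ℤ) × Fin 6 → ℝ := fun e =>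
    φ e.1 ^ 2 * u e.1 * (c e.1 e.2 * (u (e.1 + nbr e.2) - u e.1)) with hf
  set S : Finset ((ℤ × ℤ) × Fin 6) := V ×ˢ (Finset.univ : Finset (Fin 6)) with hS
  have hfS : ∀ e, e ∉ S → f e = 0 := by
    rintro ⟨v, i⟩ he
    have hv : v ∉ V := by simpa [hS] using he
    simp [hf, hφ v hv]
  have hfsum : ∑' e, f e = 0 := by
    rw [tsum_eq_sum (s := S) (fun e he => hfS e he), hS, Finset.sum_product, ← h0]
    refine Finset.sum_congr rfl fun v _ => ?_
    simp only [hf]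
    rw [Finset.mul_sum]
  have hsummf : Summable f := summable_of_ne_finset_zero (s := S) hfS
  have hfrev : ∑' e, f (rev e) = 0 := by rw [Equiv.tsum_eq rev f]; exact hfsum
  have hsummr : Summable fun e => f (rev e) := (Equiv.summable_iff rev).2 hsummf
  -- finite set of relevant edges
  set S' : Finset ((ℤ × ℤ) × Fin 6) := S ∪ S.map rev.symm.toEmbedding with hS'
  have hout : ∀ e : (ℤ × ℤ) × Fin 6, e ∉ S' → φ e.1 = 0 ∧ φ (e.1 + nbr e.2) = 0 := by
    rintro ⟨v, i⟩ he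
    simp only [hS', Finset.mem_union, not_or, hS, Finset.mem_product, Finset.mem_univ, and_true,
      Finset.mem_map_equiv, Equiv.symm_symm, rev_apply] at he
    exact ⟨hφ _ he.1, hφ _ he.2⟩
  have hs1 : Summable fun e : (ℤ × ℤ) × Fin 6 =>
      c e.1 e.2 * (φ (e.1 + nbr e.2) * u (e.1 + nbr e.2) - φ e.1 * u e.1) ^ 2 := by
    refine summable_of_ne_finset_zero (s := S') fun e he => ?_
    obtain ⟨h1, h2⟩ := hout e he
    simp [h1, h2]
  have hs2 : Summable fun e : (ℤ × ℤ) × Fin 6 =>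
      c e.1 e.2 * (u e.1 * u (e.1 + nbr e.2)) * (φ (e.1 + nbr e.2) - φ e.1) ^ 2 := by
    refine summable_of_ne_finset_zero (s := S') fun e he => ?_
    obtain ⟨h1, h2⟩ := hout e he
    simp [h1, h2]
  have hs3 : Summable fun e : (ℤ × ℤ) × Fin 6 => (φ (e.1 + nbr e.2) - φ e.1) ^ 2 := by
    refine summable_of_ne_finset_zero (s := S') fun e he => ?_
    obtain ⟨h1, h2⟩ := hout e he
    simp [h1, h2]
  refine ⟨hs1, hs2, hs3, ?_⟩
  have hpt : ∀ e : (ℤ × ℤ) × Fin 6,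
      c e.1 e.2 * (φ (e.1 + nbr e.2) * u (e.1 + nbr e.2) - φ e.1 * u e.1) ^ 2
      = c e.1 e.2 * (u e.1 * u (e.1 + nbr e.2)) * (φ (e.1 + nbr e.2) - φ e.1) ^ 2
        - (f e + f (rev e)) := by
    rintro ⟨v, i⟩
    simp only [hf, rev_apply, hsym, rev_snd]
    ring
  calc ∑' e : (ℤ × ℤ) × Fin 6,
      c e.1 e.2 * (φ (e.1 + nbr e.2) * u (e.1 + nbr e.2) - φ e.1 * u e.1) ^ 2
      = ∑' e : (ℤ × ℤ) × Fin 6,
        (c e.1 e.2 * (u e.1 * u (e.1 + nbr e.2)) * (φ (e.1 + nbr e.2) - φ e.1) ^ 2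
        - (f e + f (rev e))) := tsum_congr hpt
    _ = _ := by
      rw [hs2.tsum_sub (hsummf.add hsummr), hsummf.tsum_add hsummr, hfsum, hfrev]
      simp

/-- Main quantitative consequence. -/
lemma energy_bound (φ u : ℤ × ℤ → ℝ) (c : ℤ × ℤ → Fin 6 → ℝ) (B : ℝ)
    (hsym : ∀ v i, c (v + nbr i) (i + 3) = c v i) (V : Finset (ℤ × ℤ))
    (hφ : ∀ v, v ∉ V → φ v = 0)
    (hc0 : ∀ v i, 0 ≤ c v i) (hc1 : ∀ v i, c v i ≤ 1) (hu : ∀ v, |u v| ≤ B)
    (h0 : ∑ v ∈ V, φ v ^ 2 * u v * ∑ i, c v i * (u (v + nbr i) - u v) = 0)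
    (v : ℤ × ℤ) (i : Fin 6) :
    c v i * (φ (v + nbr i) * u (v + nbr i) - φ v * u v) ^ 2
      ≤ B ^ 2 * ∑' e : (ℤ × ℤ) × Fin 6, (φ (e.1 + nbr e.2) - φ e.1) ^ 2 := by
  obtain ⟨hs1, hs2, hs3, heq⟩ := energy_identity φ u c hsym V hφ h0
  have h1 : c v i * (φ (v + nbr i) * u (v + nbr i) - φ v * u v) ^ 2
      ≤ ∑' e : (ℤ × ℤ) × Fin 6,
      c e.1 e.2 * (φ (e.1 + nbr e.2) * u (e.1 + nbr e.2) - φ e.1 * u e.1) ^ 2 :=
    hs1.le_tsum (v, i) (fun e _ => mul_nonneg (hc0 _ _) (sq_nonneg _))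
  refine h1.trans ?_
  rw [heq, ← tsum_mul_left]
  refine hs2.tsum_le_tsum (fun e => ?_) (hs3.mul_left _)
  have hB : 0 ≤ B := (abs_nonneg _).trans (hu e.1)
  have huu : u e.1 * u (e.1 + nbr e.2) ≤ B ^ 2 := by
    calc u e.1 * u (e.1 + nbr e.2) ≤ |u e.1 * u (e.1 + nbr e.2)| := le_abs_self _
      _ = |u e.1| * |u (e.1 + nbr e.2)| := abs_mul _ _
      _ ≤ B * B := mul_le_mul (hu _) (hu _) (abs_nonneg _) hB
      _ = B ^ 2 := by ring
  have : c e.1 e.2 * (u e.1 * u (e.1 + nbr e.2)) ≤ B ^ 2 := by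
    calc c e.1 e.2 * (u e.1 * u (e.1 + nbr e.2)) ≤ c e.1 e.2 * B ^ 2 :=
          mul_le_mul_of_nonneg_left huu (hc0 _ _)
      _ ≤ 1 * B ^ 2 := mul_le_mul_of_nonneg_right (hc1 _ _) (sq_nonneg _)
      _ = B ^ 2 := one_mul _
  exact mul_le_mul_of_nonneg_right this (sq_nonneg _)

open Filter Topology

/-- box norm -/
def nrm (v : ℤ × ℤ) : ℕ := max v.1.natAbs v.2.natAbs

/-- partial harmonic sums -/
noncomputable def H (k : ℕ) : ℝ := ∑ j ∈ Finset.range k, (1 / ((j : ℝ) + 1))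

lemma H_succ (k : ℕ) : H (k + 1) = H k + 1 / ((k : ℝ) + 1) := by
  unfold H; rw [Finset.sum_range_succ]

lemma H_mono : Monotone H := by
  refine monotone_nat_of_le_succ fun k => ?_
  rw [H_succ]
  have : (0 : ℝ) ≤ 1 / ((k : ℝ) + 1) := by positivity
  linarith

lemma H_one : H 1 = 1 := by simp [H]

lemma H_pos {N : ℕ} (hN : 1 ≤ N) : 1 ≤ H N := by
  have := H_mono hN
  rwa [H_one] at this

lemma H_tendsto : Tendsto H atTop atTop := by
  have := Real.tendsto_sum_range_one_div_nat_succ_atTop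
  exact this

lemma nrm_nbr (v : ℤ × ℤ) (i : Fin 6) :
    nrm (v + nbr i) ≤ nrm v + 1 ∧ nrm v ≤ nrm (v + nbr i) + 1 := by
  obtain ⟨a, b⟩ := v
  fin_cases i <;> simp [nrm, nbr] <;> omega

lemma H_diff (k l : ℕ) (h1 : l ≤ k + 1) (h2 : k ≤ l + 1) :
    |H l - H k| ≤ 2 / ((k : ℝ) + 1) := by
  rcases Nat.lt_trichotomy l k with h | h | h
  · obtain rfl : k = l + 1 := by omega
    rw [H_succ, abs_sub_comm]
    have : H l + 1 / ((l : ℝ) + 1) - H l = 1 / ((l : ℝ) + 1) := by ring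
    rw [this, abs_of_nonneg (by positivity)]
    push_cast
    rw [div_le_div_iff₀ (by positivity) (by positivity)]
    have : (0 : ℝ) ≤ l := Nat.cast_nonneg l
    linarith
  · subst h
    simp only [sub_self, abs_zero]
    positivity
  · obtain rfl : l = k + 1 := by omega
    rw [H_succ]
    have : H k + 1 / ((k : ℝ) + 1) - H k = 1 / ((k : ℝ) + 1) := by ring
    rw [this, abs_of_nonneg (by positivity)]
    exact div_le_div_of_nonneg_right (by norm_num) (by positivity)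

/-- logarithmic cutoff -/
noncomputable def cut (N : ℕ) (v : ℤ × ℤ) : ℝ := max 0 (1 - H (nrm v) / H N)

noncomputable def box (N : ℕ) : Finset (ℤ × ℤ) :=
  Finset.Icc (-(N : ℤ)) N ×ˢ Finset.Icc (-(N : ℤ)) N

lemma mem_box (N : ℕ) (v : ℤ × ℤ) : v ∈ box N ↔ nrm v ≤ N := by
  obtain ⟨a, b⟩ := v
  simp only [box, Finset.mem_product, Finset.mem_Icc, nrm, sup_le_iff]
  omega

lemma cut_zero {N : ℕ} (hN : 1 ≤ N) {v : ℤ × ℤ} (hv : N ≤ nrm v) : cut N v = 0 := by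
  unfold cut
  have h1 := H_mono hv
  have h2 := H_pos hN
  have : 1 ≤ H (nrm v) / H N := by
    rw [le_div_iff₀ (by linarith)]; linarith
  exact max_eq_left (by linarith)

lemma cut_diff {N : ℕ} (hN : 1 ≤ N) (v : ℤ × ℤ) (i : Fin 6) :
    (cut N (v + nbr i) - cut N v) ^ 2 ≤ 4 / (((nrm v : ℝ) + 1) ^ 2 * H N ^ 2) := by
  have h2 := H_pos hN
  have h3 : |cut N (v + nbr i) - cut N v| ≤ 2 / ((nrm v : ℝ) + 1) / H N := by
    unfold cut
    calc |max 0 (1 - H (nrm (v + nbr i)) / H N) - max 0 (1 - H (nrm v) / H N)|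
        ≤ |(1 - H (nrm (v + nbr i)) / H N) - (1 - H (nrm v) / H N)| := by
          have := abs_max_sub_max_le_max 0 (1 - H (nrm (v + nbr i)) / H N) 0 (1 - H (nrm v) / H N)
          simpa using this
      _ = |H (nrm (v + nbr i)) - H (nrm v)| / H N := by
          rw [show (1 - H (nrm (v + nbr i)) / H N) - (1 - H (nrm v) / H N)
            = -((H (nrm (v + nbr i)) - H (nrm v)) / H N) by ring, abs_neg, abs_div,
            abs_of_pos (by linarith : (0 : ℝ) < H N)]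
      _ ≤ 2 / ((nrm v : ℝ) + 1) / H N :=
          div_le_div_of_nonneg_right (H_diff _ _ (nrm_nbr v i).1 (nrm_nbr v i).2) (by linarith)
  calc (cut N (v + nbr i) - cut N v) ^ 2 = |cut N (v + nbr i) - cut N v| ^ 2 := (sq_abs _).symm
    _ ≤ (2 / ((nrm v : ℝ) + 1) / H N) ^ 2 := pow_le_pow_left₀ (abs_nonneg _) h3 2
    _ = 4 / (((nrm v : ℝ) + 1) ^ 2 * H N ^ 2) := by
        field_simp
        norm_num

lemma card_sphere (N k : ℕ) : ((box N).filter (fun v => nrm v = k)).card ≤ 8 * (k + 1) := by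
  have hsub : (box N).filter (fun v => nrm v = k) ⊆
      (({(k : ℤ), -(k : ℤ)} : Finset ℤ) ×ˢ Finset.Icc (-(k : ℤ)) k) ∪
      (Finset.Icc (-(k : ℤ)) k ×ˢ ({(k : ℤ), -(k : ℤ)} : Finset ℤ)) := by
    rintro ⟨a, b⟩ h
    have h := (Finset.mem_filter.1 h).2
    simp only [nrm] at h
    simp only [Finset.mem_union, Finset.mem_product, Finset.mem_insert, Finset.mem_singleton,
      Finset.mem_Icc]
    omega
  have h2 : ({(k : ℤ), -(k : ℤ)} : Finset ℤ).card ≤ 2 := Finset.card_le_two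
  have h3 : (Finset.Icc (-(k : ℤ)) k).card = 2 * k + 1 := by
    rw [Int.card_Icc]; omega
  calc _ ≤ _ := Finset.card_le_card hsub
    _ ≤ _ := Finset.card_union_le _ _
    _ ≤ 2 * (2 * k + 1) + (2 * k + 1) * 2 := by
        rw [Finset.card_product, Finset.card_product, h3]
        gcongr
    _ ≤ 8 * (k + 1) := by omega

lemma sum_box (N : ℕ) : ∑ v ∈ box N, 1 / ((nrm v : ℝ) + 1) ^ 2 ≤ 8 * H (N + 1) := by
  have hmaps : ∀ v ∈ box N, nrm v ∈ Finset.range (N + 1) := by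
    intro v hv
    rw [mem_box] at hv
    simp only [Finset.mem_range]; omega
  rw [← Finset.sum_fiberwise_of_maps_to hmaps]
  unfold H
  rw [Finset.mul_sum]
  refine Finset.sum_le_sum fun k _ => ?_
  have : ∑ v ∈ (box N).filter (fun v => nrm v = k), 1 / ((nrm v : ℝ) + 1) ^ 2
      = ((box N).filter (fun v => nrm v = k)).card * (1 / ((k : ℝ) + 1) ^ 2) := by
    rw [← nsmul_eq_mul, ← Finset.sum_const]
    refine Finset.sum_congr rfl fun v hv => ?_
    rw [(Finset.mem_filter.1 hv).2]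
  rw [this]
  have hc : (((box N).filter (fun v => nrm v = k)).card : ℝ) ≤ 8 * ((k : ℝ) + 1) := by
    exact_mod_cast card_sphere N k
  calc _ ≤ 8 * ((k : ℝ) + 1) * (1 / ((k : ℝ) + 1) ^ 2) :=
        mul_le_mul_of_nonneg_right hc (by positivity)
    _ = 8 * (1 / ((k : ℝ) + 1)) := by field_simp

lemma cut_energy {N : ℕ} (hN : 1 ≤ N) :
    ∑' e : (ℤ × ℤ) × Fin 6, (cut N (e.1 + nbr e.2) - cut N e.1) ^ 2 ≤ 384 / H N := by
  have h2 := H_pos hN
  have hz : ∀ e : (ℤ × ℤ) × Fin 6, e ∉ (box N ×ˢ (Finset.univ : Finset (Fin 6))) →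
      (cut N (e.1 + nbr e.2) - cut N e.1) ^ 2 = 0 := by
    rintro ⟨v, i⟩ he
    have hv : ¬ nrm v ≤ N := by simpa [mem_box] using he
    have h1 := (nrm_nbr v i).2
    rw [cut_zero hN (by omega : N ≤ nrm v), cut_zero hN (by omega : N ≤ nrm (v + nbr i))]
    simp
  rw [tsum_eq_sum hz, Finset.sum_product]
  have hstep : ∀ v ∈ box N, ∑ i : Fin 6, (cut N (v + nbr i) - cut N v) ^ 2
      ≤ (24 / H N ^ 2) * (1 / ((nrm v : ℝ) + 1) ^ 2) := by
    intro v _
    calc ∑ i : Fin 6, (cut N (v + nbr i) - cut N v) ^ 2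
        ≤ ∑ _i : Fin 6, 4 / (((nrm v : ℝ) + 1) ^ 2 * H N ^ 2) :=
          Finset.sum_le_sum fun i _ => cut_diff hN v i
      _ = (24 / H N ^ 2) * (1 / ((nrm v : ℝ) + 1) ^ 2) := by
          rw [Finset.sum_const, Finset.card_univ, Fintype.card_fin, nsmul_eq_mul]
          have : H N ≠ 0 := by linarith
          field_simp
          norm_num
  calc _ ≤ ∑ v ∈ box N, (24 / H N ^ 2) * (1 / ((nrm v : ℝ) + 1) ^ 2) := Finset.sum_le_sum hstep
    _ = (24 / H N ^ 2) * ∑ v ∈ box N, (1 / ((nrm v : ℝ) + 1) ^ 2) := by rw [Finset.mul_sum]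
    _ ≤ (24 / H N ^ 2) * (8 * H (N + 1)) :=
        mul_le_mul_of_nonneg_left (sum_box N) (by positivity)
    _ ≤ (24 / H N ^ 2) * (8 * (2 * H N)) := by
        refine mul_le_mul_of_nonneg_left ?_ (by positivity)
        rw [H_succ]
        have : 1 / ((N : ℝ) + 1) ≤ 1 := by
          rw [div_le_one (by positivity)]
          have : (0 : ℝ) ≤ N := Nat.cast_nonneg N
          linarith
        linarith
    _ = 384 / H N := by
        have : H N ≠ 0 := by linarith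
        field_simp
        norm_num

lemma cut_tendsto (v : ℤ × ℤ) : Tendsto (fun N => cut N v) atTop (𝓝 1) := by
  unfold cut
  have h : Tendsto (fun N => H (nrm v) / H N) atTop (𝓝 0) :=
    Tendsto.div_atTop tendsto_const_nhds H_tendsto
  have h' : Tendsto (fun N => max 0 (1 - H (nrm v) / H N)) atTop (𝓝 (max 0 (1 - 0))) :=
    tendsto_const_nhds.max (tendsto_const_nhds.sub h)
  simpa using h'

end Pool.Agent.Lib.MP_5725d1_gt
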