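import Mathlib
import Pool.Agent.Lib.MP_5725d1_gt.Angle
import Pool.Agent.Lib.MP_5725d1_gt.Lattice

set_option autoImplicit false

namespace Pool.Agent.Lib.MP_5725d1_gt

open Real Filter Topology

/-- conductances -/
noncomputable def cond (R : ℤ × ℤ → ℝ) (v : ℤ × ℤ) (i : Fin 6) : ℝ :=
  K (R v) (R (v + nbr i)) (R (v + nbr (i + 1))) + K (R v) (R (v + nbr i)) (R (v + nbr (i + 5)))

lemma cond_symm (R : ℤ × ℤ → ℝ) (v : ℤ × ℤ) (i : Fin 6) :
    cond R (v + nbr i) (i + 3) = cond R v i := by
  unfold cond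
  have h1 : v + nbr i + nbr (i + 3) = v := rev_snd v i
  have h2 : v + nbr i + nbr (i + 3 + 1) = v + nbr (i + 5) := by
    have : i + 3 + 1 = i + 4 := by rw [add_assoc]; rfl
    rw [this, add_assoc, nbr_add_four]
  have h3 : v + nbr i + nbr (i + 3 + 5) = v + nbr (i + 1) := by
    have : i + 3 + 5 = i + 2 := by rw [add_assoc]; rfl
    rw [this, add_assoc, nbr_add_two]
  rw [h1, h2, h3, K_symm (R (v + nbr i)) (R v), K_symm (R (v + nbr i)) (R v), add_comm]

lemma cond_pos {R : ℤ × ℤ → ℝ} (hR : ∀ v, 0 < R v) (v : ℤ × ℤ) (i : Fin 6) : 0 < cond R v i :=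
  add_pos (K_pos (hR _) (hR _) (hR _)) (K_pos (hR _) (hR _) (hR _))

lemma cond_le {R : ℤ × ℤ → ℝ} (hR : ∀ v, 0 < R v) (v : ℤ × ℤ) (i : Fin 6) : cond R v i ≤ 1 := by
  have h1 := K_le (hR v) (hR (v + nbr i)) (hR (v + nbr (i + 1)))
  have h2 := K_le (hR v) (hR (v + nbr i)) (hR (v + nbr (i + 5)))
  unfold cond
  linarith

/-- the interpolated label -/
noncomputable def Rs (L u : ℤ × ℤ → ℝ) (s : ℝ) (v : ℤ × ℤ) : ℝ := exp (L v + s * u v)

lemma hasDerivAt_angleSum (L u : ℤ × ℤ → ℝ) (v : ℤ × ℤ) (s : ℝ) :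
    HasDerivAt (fun s => angleSum (Rs L u s) v)
      (∑ i, cond (Rs L u s) v i * (u (v + nbr i) - u v)) s := by
  have h1 : HasDerivAt (fun s => angleSum (Rs L u s) v)
      (∑ i : Fin 6, (K (Rs L u s v) (Rs L u s (v + nbr i)) (Rs L u s (v + nbr (i + 1)))
          * (u (v + nbr i) - u v)
        + K (Rs L u s v) (Rs L u s (v + nbr (i + 1))) (Rs L u s (v + nbr i))
          * (u (v + nbr (i + 1)) - u v))) s := by
    unfold angleSum
    refine HasDerivAt.fun_sum fun i _ => ?_
    exact hasDerivAt_ang (L v) (L (v + nbr i)) (L (v + nbr (i + 1))) (u v) (u (v + nbr i))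
      (u (v + nbr (i + 1))) s
  refine h1.congr_deriv ?_
  rw [Finset.sum_add_distrib]
  have h2 : ∑ i : Fin 6, K (Rs L u s v) (Rs L u s (v + nbr (i + 1))) (Rs L u s (v + nbr i))
          * (u (v + nbr (i + 1)) - u v)
      = ∑ i : Fin 6, K (Rs L u s v) (Rs L u s (v + nbr i)) (Rs L u s (v + nbr (i + 5)))
          * (u (v + nbr i) - u v) := by
    rw [← Equiv.sum_comp (Equiv.addRight (1 : Fin 6)) (fun i =>
      K (Rs L u s v) (Rs L u s (v + nbr i)) (Rs L u s (v + nbr (i + 5)))
          * (u (v + nbr i) - u v))]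
    refine Finset.sum_congr rfl fun i _ => ?_
    simp only [Equiv.coe_addRight]
    have : i + 1 + 5 = i := by revert i; decide
    rw [this]
  rw [h2, ← Finset.sum_add_distrib]
  refine Finset.sum_congr rfl fun i _ => ?_
  unfold cond
  ring

lemma continuous_K (a b c x y z : ℝ) :
    Continuous fun s : ℝ => K (exp (a + s * x)) (exp (b + s * y)) (exp (c + s * z)) := by
  unfold K
  refine Continuous.div ?_ (by fun_prop) (fun s => by positivity)
  refine Real.continuous_sqrt.comp ?_
  exact Continuous.div (by fun_prop) (by fun_prop) (fun s => by positivity)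

/-- Rigidity: a packing label with bounded ratios of adjacent radii is multiplicative. -/
theorem shift_const (R : ℤ × ℤ → ℝ) (hpos : ∀ v, 0 < R v) (hsum : ∀ v, angleSum R v = 2 * π)
    (B : ℝ) (hB : ∀ v i, |log (R (v + nbr i)) - log (R v)| ≤ B) (i₀ : Fin 6) :
    ∀ v i, log (R (v + nbr i + nbr i₀)) - log (R (v + nbr i))
      = log (R (v + nbr i₀)) - log (R v) := by
  intro v i
  set L : ℤ × ℤ → ℝ := fun v => log (R v) with hL
  set u : ℤ × ℤ → ℝ := fun v => log (R (v + nbr i₀)) - log (R v) with hu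
  have hub : ∀ v, |u v| ≤ B := fun v => hB v i₀
  have hR0 : Rs L u 0 = R := by
    funext w; simp [Rs, hL, Real.exp_log (hpos w)]
  have hR1 : Rs L u 1 = fun w => R (w + nbr i₀) := by
    funext w
    simp only [Rs, hL, hu, one_mul]
    rw [add_sub_cancel, Real.exp_log (hpos _)]
  have hRpos : ∀ s w, 0 < Rs L u s w := fun s w => Real.exp_pos _
  have hsum1 : ∀ w, angleSum (Rs L u 1) w = 2 * π := by
    intro w
    rw [hR1, ← hsum (w + nbr i₀)]
    unfold angleSum
    refine Finset.sum_congr rfl fun j _ => ?_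
    simp only
    rw [add_right_comm w (nbr j), add_right_comm w (nbr (j + 1))]
  -- lower bound for the conductance of the given edge
  have hcont : Continuous fun s : ℝ => cond (Rs L u s) v i := by
    unfold cond Rs
    exact (continuous_K _ _ _ _ _ _).add (continuous_K _ _ _ _ _ _)
  obtain ⟨s₀, hs₀, hmin⟩ := (isCompact_Icc (a := (0 : ℝ)) (b := 1)).exists_isMinOn
    ⟨0, by simp⟩ hcont.continuousOn
  set δ := cond (Rs L u s₀) v i with hδ
  have hδpos : 0 < δ := cond_pos (hRpos s₀) v i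
  -- the estimate for each cutoff
  have hest : ∀ N : ℕ, 1 ≤ N →
      δ * (cut N (v + nbr i) * u (v + nbr i) - cut N v * u v) ^ 2 ≤ B ^ 2 * (384 / H N) := by
    intro N hN
    have hder : ∀ s, HasDerivAt
        (fun s => ∑ w ∈ box N, cut N w ^ 2 * u w * angleSum (Rs L u s) w)
        (∑ w ∈ box N, cut N w ^ 2 * u w *
          ∑ j, cond (Rs L u s) w j * (u (w + nbr j) - u w)) s := by
      intro s
      refine HasDerivAt.fun_sum fun w _ => ?_
      exact (hasDerivAt_angleSum L u w s).const_mul _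
    obtain ⟨s, hs, hs0⟩ := exists_hasDerivAt_eq_zero (a := 0) (b := 1)
      (f := fun s => ∑ w ∈ box N, cut N w ^ 2 * u w * angleSum (Rs L u s) w)
      (f' := fun s => ∑ w ∈ box N, cut N w ^ 2 * u w *
          ∑ j, cond (Rs L u s) w j * (u (w + nbr j) - u w)) one_pos
      (fun s _ => (hder s).continuousAt.continuousWithinAt)
      (by simp only [hsum1, hR0, hsum]) (fun s _ => hder s)
    have hb := energy_bound (cut N) u (cond (Rs L u s)) B (cond_symm _) (box N)
      (fun w hw => cut_zero hN (by rw [mem_box] at hw; omega))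
      (fun w j => (cond_pos (hRpos s) w j).le) (fun w j => cond_le (hRpos s) w j) hub hs0 v i
    have hle : δ ≤ cond (Rs L u s) v i := hmin ⟨hs.1.le, hs.2.le⟩
    calc δ * (cut N (v + nbr i) * u (v + nbr i) - cut N v * u v) ^ 2
        ≤ cond (Rs L u s) v i * (cut N (v + nbr i) * u (v + nbr i) - cut N v * u v) ^ 2 :=
          mul_le_mul_of_nonneg_right hle (sq_nonneg _)
      _ ≤ _ := hb
      _ ≤ B ^ 2 * (384 / H N) := mul_le_mul_of_nonneg_left (cut_energy hN) (sq_nonneg _)
  -- pass to the limit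
  have hlim1 : Tendsto (fun N : ℕ =>
      δ * (cut N (v + nbr i) * u (v + nbr i) - cut N v * u v) ^ 2) atTop
      (𝓝 (δ * (1 * u (v + nbr i) - 1 * u v) ^ 2)) :=
    ((((cut_tendsto (v + nbr i)).mul_const _).sub ((cut_tendsto v).mul_const _)).pow 2).const_mul _
  have hlim2 : Tendsto (fun N : ℕ => B ^ 2 * (384 / H N)) atTop (𝓝 (B ^ 2 * 0)) :=
    (Tendsto.div_atTop tendsto_const_nhds H_tendsto).const_mul _
  have hfin : δ * (1 * u (v + nbr i) - 1 * u v) ^ 2 ≤ B ^ 2 * 0 :=
    le_of_tendsto_of_tendsto hlim1 hlim2 (eventually_atTop.2 ⟨1, hest⟩)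
  rw [one_mul, one_mul, mul_zero] at hfin
  have hsq : (u (v + nbr i) - u v) ^ 2 ≤ 0 := by
    by_contra h
    push Not at h
    have := mul_pos hδpos h
    linarith
  have h0 : u (v + nbr i) - u v = 0 := by
    have := le_antisymm hsq (sq_nonneg _)
    exact pow_eq_zero_iff (two_ne_zero) |>.1 this
  exact sub_eq_zero.1 h0

/-- A function on the lattice invariant under the unit shifts is constant. -/
lemma const_of_shift (f : ℤ × ℤ → ℝ) (h : ∀ v i, f (v + nbr i) = f v) : ∀ v, f v = f (0, 0) := by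
  have h1 : ∀ (n m : ℤ), f (n, m) = f (0, m) := by
    intro n m
    induction n using Int.induction_on with
    | zero => rfl
    | succ k ih =>
      have := h ((k : ℤ), m) 0
      simp only [nbr, Matrix.cons_val_zero, Prod.mk_add_mk, add_zero] at this
      rw [this, ih]
    | pred k ih =>
      have := h (-(k : ℤ) - 1, m) 0
      simp only [nbr, Matrix.cons_val_zero, Prod.mk_add_mk, add_zero, sub_add_cancel] at this
      rw [← this, ih]
  have h2 : ∀ (m : ℤ), f (0, m) = f (0, 0) := by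
    intro m
    induction m using Int.induction_on with
    | zero => rfl
    | succ k ih =>
      have := h (0, (k : ℤ)) 1
      simp only [nbr, Matrix.cons_val_one, Matrix.cons_val_zero, Prod.mk_add_mk, add_zero] at this
      rw [this, ih]
    | pred k ih =>
      have := h (0, -(k : ℤ) - 1) 1
      simp only [nbr, Matrix.cons_val_one, Matrix.cons_val_zero, Prod.mk_add_mk, add_zero,
        sub_add_cancel] at this
      rw [← this, ih]
  rintro ⟨n, m⟩
  rw [h1, h2]

/-- Packing labels of the hexagonal complex with bounded ratios of adjacent radii are the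
labels `c a^n b^m`. -/
theorem bounded_ratio_rigidity (R : ℤ × ℤ → ℝ) (hpos : ∀ v, 0 < R v)
    (hsum : ∀ v, angleSum R v = 2 * π)
    (B : ℝ) (hB : ∀ v i, |log (R (v + nbr i)) - log (R v)| ≤ B) :
    ∃ a b c : ℝ, 0 < a ∧ 0 < b ∧ 0 < c ∧ ∀ n m : ℤ, R (n, m) = c * a ^ n * b ^ m := by
  have hshift : ∀ i₀ : Fin 6, ∀ v, R (v + nbr i₀) = exp (log (R ((0, 0) + nbr i₀))
      - log (R (0, 0))) * R v := by
    intro i₀ v
    have h1 : log (R (v + nbr i₀)) - log (R v) = log (R ((0, 0) + nbr i₀)) - log (R (0, 0)) :=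
      const_of_shift (fun v => log (R (v + nbr i₀)) - log (R v))
      (fun v i => shift_const R hpos hsum B hB i₀ v i) v
    rw [← h1, Real.exp_sub, Real.exp_log (hpos _), Real.exp_log (hpos _),
      div_mul_cancel₀ _ (hpos v).ne']
  obtain ⟨a, ha⟩ : ∃ a, a = exp (log (R ((0, 0) + nbr 0)) - log (R (0, 0))) := ⟨_, rfl⟩
  obtain ⟨b, hb⟩ : ∃ b, b = exp (log (R ((0, 0) + nbr 1)) - log (R (0, 0))) := ⟨_, rfl⟩
  have ha0 : 0 < a := ha ▸ exp_pos _
  have hb0 : 0 < b := hb ▸ exp_pos _
  have hA : ∀ n m : ℤ, R (n + 1, m) = a * R (n, m) := by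
    intro n m
    have := hshift 0 (n, m)
    rw [← ha] at this
    simpa only [nbr, Matrix.cons_val_zero, Prod.mk_add_mk, add_zero] using this
  have hBb : ∀ n m : ℤ, R (n, m + 1) = b * R (n, m) := by
    intro n m
    have := hshift 1 (n, m)
    rw [← hb] at this
    simpa only [nbr, Matrix.cons_val_one, Matrix.cons_val_zero, Prod.mk_add_mk, add_zero] using this
  refine ⟨a, b, R (0, 0), ha0, hb0, hpos _, ?_⟩
  have h1 : ∀ (n m : ℤ), R (n, m) = a ^ n * R (0, m) := by
    intro n m
    induction n using Int.induction_on with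
    | zero => simp
    | succ k ih => rw [hA, ih, zpow_add_one₀ ha0.ne']; ring
    | pred k ih =>
      have := hA (-(k : ℤ) - 1) m
      rw [sub_add_cancel, ih] at this
      rw [zpow_sub_one₀ ha0.ne']
      field_simp
      rw [mul_comm (R _) a, ← this]
  have h2 : ∀ (m : ℤ), R (0, m) = b ^ m * R (0, 0) := by
    intro m
    induction m using Int.induction_on with
    | zero => simp
    | succ k ih => rw [hBb, ih, zpow_add_one₀ hb0.ne']; ring
    | pred k ih =>
      have := hBb 0 (-(k : ℤ) - 1)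
      rw [sub_add_cancel, ih] at this
      rw [zpow_sub_one₀ hb0.ne']
      field_simp
      rw [mul_comm (R _) b, ← this]
  intro n m
  rw [h1, h2]
  ring

end Pool.Agent.Lib.MP_5725d1_gt
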