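import Mathlib
import Pool.Agent.Lib.MP_5725d1_gt.Rigidity

set_option autoImplicit false

namespace Pool.Agent.Lib.MP_5725d1_gt

open Real

lemma norm_sq_scaled (p q : ℂ) (A B : ℝ) (hp : ‖p‖ = 1) (hq : ‖q‖ = 1) :
    ‖(A : ℂ) * p - (B : ℂ) * q‖ ^ 2 = (A - B) ^ 2 + A * B * ‖p - q‖ ^ 2 := by
  have hp' : p.re * p.re + p.im * p.im = 1 := by
    have := Complex.sq_norm p
    rw [hp, Complex.normSq_apply] at this
    linarith
  have hq' : q.re * q.re + q.im * q.im = 1 := by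
    have := Complex.sq_norm q
    rw [hq, Complex.normSq_apply] at this
    linarith
  rw [Complex.sq_norm, Complex.sq_norm, Complex.normSq_apply, Complex.normSq_apply]
  simp only [Complex.sub_re, Complex.sub_im, Complex.mul_re, Complex.mul_im, Complex.ofReal_re,
    Complex.ofReal_im, zero_mul, sub_zero, add_zero]
  linear_combination (A ^ 2 - A * B) * hp' + (B ^ 2 - A * B) * hq'

/-- the angle is at most `π s t` with `s = √(y/(x+y))`, `t = √(z/(x+z))`. -/
lemma ang_le {x y z : ℝ} (hx : 0 < x) (hy : 0 < y) (hz : 0 < z) :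
    ang x y z ≤ π * (√(y / (x + y)) * √(z / (x + z))) := by
  set s := √(y / (x + y)) with hs
  set t := √(z / (x + z)) with ht
  have hs0 : 0 ≤ s := Real.sqrt_nonneg _
  have ht0 : 0 ≤ t := Real.sqrt_nonneg _
  have hs2 : s ^ 2 = y / (x + y) := Real.sq_sqrt (by positivity)
  have ht2 : t ^ 2 = z / (x + z) := Real.sq_sqrt (by positivity)
  have hs1 : s ≤ 1 := by
    refine (Real.sqrt_le_sqrt ((div_le_one (by positivity)).2 (by linarith))).trans_eq Real.sqrt_one
  have ht1 : t ≤ 1 := by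
    refine (Real.sqrt_le_sqrt ((div_le_one (by positivity)).2 (by linarith))).trans_eq Real.sqrt_one
  have hst0 : 0 ≤ s * t := mul_nonneg hs0 ht0
  have hst1 : s * t ≤ 1 := by nlinarith
  have harg : ((x + y) ^ 2 + (x + z) ^ 2 - (y + z) ^ 2) / (2 * (x + y) * (x + z))
      = 1 - 2 * (s * t) ^ 2 := by
    rw [mul_pow, hs2, ht2]
    field_simp
    ring
  unfold ang
  rw [harg]
  have hpi := Real.pi_pos
  have h1 : s * t ≤ sin (π / 2 * (s * t)) := by
    have := Real.mul_le_sin (x := π / 2 * (s * t)) (by positivity) (by nlinarith)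
    calc s * t = 2 / π * (π / 2 * (s * t)) := by field_simp
      _ ≤ _ := this
  have h2 : cos (π * (s * t)) ≤ 1 - 2 * (s * t) ^ 2 := by
    have h3 : cos (π * (s * t)) = 1 - 2 * sin (π / 2 * (s * t)) ^ 2 := by
      rw [show π * (s * t) = 2 * (π / 2 * (s * t)) by ring, Real.cos_two_mul, Real.cos_sq']
      ring
    rw [h3]
    have : (s * t) ^ 2 ≤ sin (π / 2 * (s * t)) ^ 2 := pow_le_pow_left₀ hst0 h1 2
    linarith
  calc Real.arccos (1 - 2 * (s * t) ^ 2) ≤ Real.arccos (cos (π * (s * t))) :=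
        Real.arccos_le_arccos h2
    _ = π * (s * t) := Real.arccos_cos (by positivity) (by nlinarith)

/-- numerical core of the ring lemma -/
lemma ring_core {a x1 x2 x3 x4 x5 : ℝ} (ha : 0 < a) (ha1 : a ≤ 1)
    (h1 : 0 ≤ x1) (h2 : 0 ≤ x2) (h3 : 0 ≤ x3) (h4 : 0 ≤ x4)
    (g2' : x2 ≤ 1) (g3' : x3 ≤ 1) (g4' : x4 ≤ 1) (g5' : x5 ≤ 1)
    (k2 : a * x2 ≤ a * x1 + x1 * x2)
    (k3 : a * x3 ≤ a * x1 + x1 * x2 + x2 * x3)
    (k4 : a * x4 ≤ a * x1 + x1 * x2 + x2 * x3 + x3 * x4)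
    (k5 : a * x5 ≤ a * x1 + x1 * x2 + x2 * x3 + x3 * x4 + x4 * x5)
    (hs : 2 ≤ a * x1 + x1 * x2 + x2 * x3 + x3 * x4 + x4 * x5 + x5 * a) :
    a ^ 3 ≤ 16 * x1 := by
  set P1 := a * x1 with hP1
  set P2 := P1 + x1 * x2 with hP2
  set P3 := P2 + x2 * x3 with hP3
  set P4 := P3 + x3 * x4 with hP4
  set P5 := P4 + x4 * x5 with hP5
  have p1 : 0 ≤ P1 := by positivity
  have p2 : 0 ≤ P2 := by positivity
  have p3 : 0 ≤ P3 := by positivity
  have p4 : 0 ≤ P4 := by positivity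
  have e5 : 1 ≤ P5 := by linarith
  have q2 : a * P2 ≤ 2 * P1 := by
    have : a * (x1 * x2) ≤ P1 := by
      calc a * (x1 * x2) = (a * x1) * x2 := by ring
        _ ≤ (a * x1) * 1 := mul_le_mul_of_nonneg_left g2' p1
        _ = P1 := by rw [mul_one]
    nlinarith
  have q3 : a * P3 ≤ 2 * P2 := by
    have : a * (x2 * x3) ≤ P2 := by
      calc a * (x2 * x3) = (a * x2) * x3 := by ring
        _ ≤ (a * x2) * 1 := mul_le_mul_of_nonneg_left g3' (by positivity)
        _ ≤ P2 := by rw [mul_one]; exact k2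
    nlinarith
  have q4 : a * P4 ≤ 2 * P3 := by
    have : a * (x3 * x4) ≤ P3 := by
      calc a * (x3 * x4) = (a * x3) * x4 := by ring
        _ ≤ (a * x3) * 1 := mul_le_mul_of_nonneg_left g4' (by positivity)
        _ ≤ P3 := by rw [mul_one]; exact k3
    nlinarith
  have q5 : a * P5 ≤ 2 * P4 := by
    have : a * (x4 * x5) ≤ P4 := by
      calc a * (x4 * x5) = (a * x4) * x5 := by ring
        _ ≤ (a * x4) * 1 := mul_le_mul_of_nonneg_left g5' (by positivity)
        _ ≤ P4 := by rw [mul_one]; exact k4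
    nlinarith
  have r5 : a ≤ 2 * P4 := le_trans (by nlinarith) q5
  have r4 : a * a ≤ 4 * P3 := by nlinarith
  have r3 : a * a * a ≤ 8 * P2 := by nlinarith
  have r2 : a * a * a * a ≤ 16 * P1 := by nlinarith
  have : a * a ^ 3 ≤ a * (16 * x1) := by
    calc a * a ^ 3 = a * a * a * a := by ring
      _ ≤ 16 * P1 := r2
      _ = a * (16 * x1) := by rw [hP1]; ring
  exact le_of_mul_le_mul_left this ha

/-- the constants of the ring lemma -/
noncomputable def rc : ℕ → ℝ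
  | 0 => 1 / 3
  | n + 1 => (rc n) ^ 3 / 16

lemma rc_pos : ∀ n, 0 < rc n
  | 0 => by norm_num [rc]
  | n + 1 => by have := rc_pos n; simp only [rc]; positivity

lemma rc_le_one : ∀ n, rc n ≤ 1
  | 0 => by norm_num [rc]
  | n + 1 => by
    have h := rc_pos n
    have h1 := rc_le_one n
    have : rc n ^ 3 ≤ 1 := pow_le_one₀ h.le h1
    simp only [rc]; linarith

lemma rc_anti (n : ℕ) : rc (n + 1) ≤ rc n := by
  have h := rc_pos n
  have h1 := rc_le_one n
  have : rc n ^ 3 ≤ rc n := by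
    calc rc n ^ 3 = rc n * (rc n ^ 2) := by ring
      _ ≤ rc n * 1 := mul_le_mul_of_nonneg_left (pow_le_one₀ h.le h1) h.le
      _ = rc n := mul_one _
  simp only [rc]
  linarith

lemma exists_iter : ∀ k i : Fin 6, ∃ n : Fin 6, (fun j : Fin 6 => j + 1)^[n.val] k = i := by
  decide

/-- Ring lemma for univalent six-petal flowers. -/
theorem ring_lemma (r : ℝ) (ρ : Fin 6 → ℝ) (w : Fin 6 → ℂ) (hr : 0 < r) (hρ : ∀ i, 0 < ρ i)
    (hw : ∀ i, ‖w i‖ = r + ρ i)
    (htan : ∀ i, ‖w i - w (i + 1)‖ = ρ i + ρ (i + 1))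
    (hdis : ∀ i j, i ≠ j → ρ i + ρ j ≤ ‖w i - w j‖)
    (hang : ∑ i : Fin 6, ang r (ρ i) (ρ (i + 1)) = 2 * π) :
    ∀ i, (rc 5) ^ 2 * r ≤ ρ i := by
  set s : Fin 6 → ℝ := fun i => √(ρ i / (r + ρ i)) with hs
  have hs0 : ∀ i, 0 < s i := fun i => Real.sqrt_pos.2 (div_pos (hρ i) (by linarith [hρ i]))
  have hs2 : ∀ i, s i ^ 2 = ρ i / (r + ρ i) := fun i =>
    Real.sq_sqrt (div_nonneg (hρ i).le (by linarith [hρ i]))
  have hs1 : ∀ i, s i ≤ 1 := fun i => by
    have := hρ i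
    exact (Real.sqrt_le_sqrt ((div_le_one (by linarith)).2 (by linarith))).trans_eq Real.sqrt_one
  set p : Fin 6 → ℂ := fun i => w i / ((r + ρ i : ℝ) : ℂ) with hp
  have hpn : ∀ i, ‖p i‖ = 1 := fun i => by
    have := hρ i
    simp only [hp]
    rw [norm_div, hw, Complex.norm_real, Real.norm_of_nonneg (by linarith), div_self (by linarith)]
  have hwp : ∀ i, w i = ((r + ρ i : ℝ) : ℂ) * p i := fun i => by
    have := hρ i
    simp only [hp]
    rw [mul_div_cancel₀]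
    exact_mod_cast (by linarith : r + ρ i ≠ 0)
  have hnorm : ∀ i j, ‖w i - w j‖ ^ 2 = (ρ i - ρ j) ^ 2 + (r + ρ i) * (r + ρ j) * ‖p i - p j‖ ^ 2 := by
    intro i j
    rw [hwp i, hwp j, norm_sq_scaled (p i) (p j) _ _ (hpn i) (hpn j)]
    ring
  have hlow : ∀ i j, i ≠ j → 2 * (s i * s j) ≤ ‖p i - p j‖ := by
    intro i j hij
    have hi := hρ i
    have hj := hρ j
    have h1 := hnorm i j
    have h2 : (ρ i + ρ j) ^ 2 ≤ ‖w i - w j‖ ^ 2 := pow_le_pow_left₀ (by linarith) (hdis i j hij) 2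
    have h3 : (2 * (s i * s j)) ^ 2 ≤ ‖p i - p j‖ ^ 2 := by
      rw [show (2 * (s i * s j)) ^ 2 = 4 * (s i ^ 2 * s j ^ 2) by ring, hs2, hs2]
      have : 4 * (ρ i / (r + ρ i) * (ρ j / (r + ρ j))) = 4 * ρ i * ρ j / ((r + ρ i) * (r + ρ j)) := by
        field_simp
      rw [this, div_le_iff₀ (by positivity)]
      nlinarith
    exact le_of_sq_le_sq h3 (norm_nonneg _) |>.trans_eq rfl
  have hadj : ∀ i, ‖p i - p (i + 1)‖ = 2 * (s i * s (i + 1)) := by
    intro i
    have hi := hρ i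
    have hj := hρ (i + 1)
    have h1 := hnorm i (i + 1)
    rw [htan] at h1
    have h3 : ‖p i - p (i + 1)‖ ^ 2 = (2 * (s i * s (i + 1))) ^ 2 := by
      rw [show (2 * (s i * s (i + 1))) ^ 2 = 4 * (s i ^ 2 * s (i + 1) ^ 2) by ring, hs2, hs2]
      have : 4 * (ρ i / (r + ρ i) * (ρ (i + 1) / (r + ρ (i + 1))))
          = 4 * ρ i * ρ (i + 1) / ((r + ρ i) * (r + ρ (i + 1))) := by
        field_simp
      rw [this, eq_div_iff (by positivity)]
      linarith
    have h4 : 0 ≤ 2 * (s i * s (i + 1)) := by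
      have := hs0 i
      have := hs0 (i + 1)
      positivity
    rwa [sq_eq_sq₀ (norm_nonneg _) h4] at h3
  -- the total of the products
  have htot : 2 ≤ ∑ i : Fin 6, s i * s (i + 1) := by
    have h1 : ∑ i : Fin 6, ang r (ρ i) (ρ (i + 1)) ≤ ∑ i : Fin 6, π * (s i * s (i + 1)) :=
      Finset.sum_le_sum fun i _ => ang_le hr (hρ i) (hρ (i + 1))
    rw [hang, ← Finset.mul_sum, mul_comm] at h1
    exact le_of_mul_le_mul_left h1 Real.pi_pos
  -- the step
  have hstep : ∀ i, s i ^ 3 ≤ 16 * s (i + 1) := by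
    intro i
    have hne : ∀ k : Fin 6, k ≠ 0 → i ≠ i + k := by
      intro k hk h
      exact hk (by simpa using h.symm)
    have d1 : ‖p i - p (i + 1)‖ = 2 * (s i * s (i + 1)) := hadj i
    have d2 : ‖p (i + 1) - p (i + 2)‖ = 2 * (s (i + 1) * s (i + 2)) := by
      have := hadj (i + 1); rwa [show i + 1 + 1 = i + 2 by rw [add_assoc]; rfl] at this
    have d3 : ‖p (i + 2) - p (i + 3)‖ = 2 * (s (i + 2) * s (i + 3)) := by
      have := hadj (i + 2); rwa [show i + 2 + 1 = i + 3 by rw [add_assoc]; rfl] at this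
    have d4 : ‖p (i + 3) - p (i + 4)‖ = 2 * (s (i + 3) * s (i + 4)) := by
      have := hadj (i + 3); rwa [show i + 3 + 1 = i + 4 by rw [add_assoc]; rfl] at this
    have d5 : ‖p (i + 4) - p (i + 5)‖ = 2 * (s (i + 4) * s (i + 5)) := by
      have := hadj (i + 4); rwa [show i + 4 + 1 = i + 5 by rw [add_assoc]; rfl] at this
    have t2 : ‖p i - p (i + 2)‖ ≤ ‖p i - p (i + 1)‖ + ‖p (i + 1) - p (i + 2)‖ :=
      norm_sub_le_norm_sub_add_norm_sub _ _ _
    have t3 : ‖p i - p (i + 3)‖ ≤ ‖p i - p (i + 2)‖ + ‖p (i + 2) - p (i + 3)‖ :=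
      norm_sub_le_norm_sub_add_norm_sub _ _ _
    have t4 : ‖p i - p (i + 4)‖ ≤ ‖p i - p (i + 3)‖ + ‖p (i + 3) - p (i + 4)‖ :=
      norm_sub_le_norm_sub_add_norm_sub _ _ _
    have t5 : ‖p i - p (i + 5)‖ ≤ ‖p i - p (i + 4)‖ + ‖p (i + 4) - p (i + 5)‖ :=
      norm_sub_le_norm_sub_add_norm_sub _ _ _
    have l2 := hlow i (i + 2) (hne 2 (by decide))
    have l3 := hlow i (i + 3) (hne 3 (by decide))
    have l4 := hlow i (i + 4) (hne 4 (by decide))
    have l5 := hlow i (i + 5) (hne 5 (by decide))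
    have hsum6 : ∑ j : Fin 6, s j * s (j + 1) = s i * s (i + 1) + s (i + 1) * s (i + 2)
        + s (i + 2) * s (i + 3) + s (i + 3) * s (i + 4) + s (i + 4) * s (i + 5)
        + s (i + 5) * s i := by
      rw [← Equiv.sum_comp (Equiv.addLeft i) (fun j => s j * s (j + 1)), Fin.sum_univ_six]
      simp only [Equiv.coe_addLeft, add_zero]
      rw [show i + 1 + 1 = i + 2 by rw [add_assoc]; rfl, show i + 2 + 1 = i + 3 by rw [add_assoc]; rfl,
        show i + 3 + 1 = i + 4 by rw [add_assoc]; rfl, show i + 4 + 1 = i + 5 by rw [add_assoc]; rfl,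
        show i + 5 + 1 = i by rw [add_assoc]; exact add_zero i]
    rw [hsum6] at htot
    exact ring_core (hs0 i) (hs1 i) (hs0 _).le (hs0 _).le (hs0 _).le (hs0 _).le
      (hs1 _) (hs1 _) (hs1 _) (hs1 _) (by linarith) (by linarith) (by linarith) (by linarith) htot
  -- a large petal
  obtain ⟨k, hk⟩ : ∃ k, 1 / 3 ≤ s k := by
    by_contra h
    push Not at h
    have : ∑ i : Fin 6, s i * s (i + 1) < ∑ _i : Fin 6, (1 / 3 : ℝ) := by
      refine Finset.sum_lt_sum_of_nonempty ⟨0, Finset.mem_univ _⟩ fun i _ => ?_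
      calc s i * s (i + 1) ≤ s i * 1 := mul_le_mul_of_nonneg_left (hs1 _) (hs0 _).le
        _ = s i := mul_one _
        _ < 1 / 3 := h i
    rw [Finset.sum_const, Finset.card_univ, Fintype.card_fin, nsmul_eq_mul] at this
    norm_num at this
    linarith
  have hiter : ∀ n : ℕ, rc n ≤ s ((fun j : Fin 6 => j + 1)^[n] k) := by
    intro n
    induction n with
    | zero => simpa [rc] using hk
    | succ n ih =>
      have h1 := hstep ((fun j : Fin 6 => j + 1)^[n] k)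
      have h2 : rc n ^ 3 ≤ s ((fun j : Fin 6 => j + 1)^[n] k) ^ 3 :=
        pow_le_pow_left₀ (rc_pos n).le ih 3
      rw [Function.iterate_succ_apply']
      simp only [rc]
      linarith
  have hanti : ∀ n ≤ 5, rc 5 ≤ rc n := by
    intro n hn
    have h0 := rc_anti 0
    have h1 := rc_anti 1
    have h2 := rc_anti 2
    have h3 := rc_anti 3
    have h4 := rc_anti 4
    norm_num at h0 h1 h2 h3 h4
    interval_cases n <;> linarith
  intro i
  have hsi : rc 5 ≤ s i := by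
    obtain ⟨n, hn⟩ := exists_iter k i
    have h1 := hiter n.val
    rw [hn] at h1
    exact (hanti n.val (by omega)).trans h1
  have hi := hρ i
  have h1 : rc 5 ^ 2 ≤ ρ i / (r + ρ i) := by
    rw [← hs2]
    exact pow_le_pow_left₀ (rc_pos 5).le hsi 2
  rw [le_div_iff₀ (by linarith)] at h1
  have h2 : 0 ≤ rc 5 ^ 2 * ρ i := by positivity
  nlinarith

end Pool.Agent.Lib.MP_5725d1_gt
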